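import Pool.Agent.H.MP_7618c8_co.C

namespace Pool.Agent.Results.MP_7618c8_co.Order

open Finset Filter Topology

def Free (r n : ℕ) (G : Finset (Finset (Fin n))) : Prop :=
  (∀ e ∈ G, e.card = r) ∧
    ∀ S : Finset (Fin n), S.card = r + 1 → (G.filter (fun e => e ⊆ S)).card ≤ 2

instance (r n : ℕ) : DecidablePred (Free r n) := fun G => by unfold Free; infer_instance

def ex (r n : ℕ) : ℕ := (univ.filter (Free r n)).sup card

theorem le_ex {r n : ℕ} {G : Finset (Finset (Fin n))} (h : Free r n G) : G.card ≤ ex r n :=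
  le_sup (f := card) (mem_filter.2 ⟨mem_univ _, h⟩)

theorem ex_att (r n : ℕ) : ∃ G, Free r n G ∧ ex r n = G.card := by
  obtain ⟨G, hG, e⟩ := exists_mem_eq_sup (univ.filter (Free r n))
    ⟨∅, mem_filter.2 ⟨mem_univ _, by simp [Free]⟩⟩ card
  exact ⟨G, (mem_filter.1 hG).2, e⟩

theorem del {r n : ℕ} {G : Finset (Finset (Fin (n + 1)))} (h : Free r (n + 1) G) (x : Fin (n + 1)) :
    (G.filter (fun e => x ∉ e)).card ≤ ex r n := by
  set G' := (univ : Finset (Finset (Fin n))).filter (fun e => e.map x.succAboveEmb ∈ G)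
    with hG'
  have hf : Free r n G' := by
    constructor
    · intro e he
      have := h.1 _ (mem_filter.1 he).2
      rwa [card_map] at this
    · intro S hS
      refine le_trans ?_ (h.2 (S.map x.succAboveEmb) (by rw [card_map, hS]))
      apply card_le_card_of_injOn (fun e => e.map x.succAboveEmb)
      · intro e he
        simp only [coe_filter, Set.mem_ofPred_eq, hG', mem_filter, mem_univ, true_and] at he ⊢
        exact ⟨he.1, map_subset_map.2 he.2⟩
      · intro e _ e' _ hee
        exact Finset.map_injective _ hee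
  refine le_trans ?_ (le_ex hf)
  refine le_trans (card_le_card ?_) (card_image_le (f := fun e => e.map x.succAboveEmb))
  intro e he
  obtain ⟨he1, he2⟩ := mem_filter.1 he
  have key : (univ.filter (fun i : Fin n => x.succAbove i ∈ e)).map x.succAboveEmb = e := by
    ext y
    simp only [Finset.mem_map, mem_filter, mem_univ, true_and]
    constructor
    · rintro ⟨i, hi, rfl⟩
      exact hi
    · intro hy
      obtain ⟨i, rfl⟩ := Fin.exists_succAbove_eq (show y ≠ x from fun e => he2 (e ▸ hy))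
      exact ⟨i, hy, rfl⟩
  exact mem_image.2 ⟨_, mem_filter.2 ⟨mem_univ _, by rw [key]; exact he1⟩, key⟩

theorem mono (r n : ℕ) (hn : r ≤ n) : ex r (n + 1) * n.choose r ≤ ex r n * (n + 1).choose r := by
  obtain ⟨G, hG, e⟩ := ex_att r (n + 1)
  have h := card_mul_le_card_mul (s := G) (t := (univ : Finset (Fin (n + 1))))
    (fun e x => x ∉ e) (m := n + 1 - r) (n := ex r n) (by
      intro e he
      have : (univ \ e).card = n + 1 - r := by
        rw [card_sdiff_of_subset (subset_univ _), card_univ, Fintype.card_fin, hG.1 e he]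
      rw [← this]
      apply card_le_card
      intro x hx
      simpa using hx) (fun x _ => del hG x)
  rw [card_univ, Fintype.card_fin, ← e] at h
  have e2 := Nat.choose_mul_succ_eq n r
  apply Nat.le_of_mul_le_mul_right _ (show 0 < n + 1 - r by omega)
  calc ex r (n + 1) * n.choose r * (n + 1 - r) = ex r (n + 1) * (n + 1 - r) * n.choose r := by ring
    _ ≤ (n + 1) * ex r n * n.choose r := Nat.mul_le_mul_right _ h
    _ = ex r n * (n.choose r * (n + 1)) := by ring
    _ = _ := by rw [e2]; ring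

theorem result (r : ℕ) (hr : 3 ≤ r) :
    ∃ d : ℝ, Tendsto (fun n : ℕ => (ex r n : ℝ) / (n.choose r : ℝ)) atTop (𝓝 d) ∧
      1 / (32 * (r : ℝ)) ≤ d ∧ d ≤ 2 / ((r : ℝ) + 1) := by
  set u : ℕ → ℝ := fun n => (ex r n : ℝ) / (n.choose r : ℝ) with hu
  have r0 : (0 : ℝ) < r := by exact_mod_cast (show 0 < r by omega)
  have cp : ∀ n, r ≤ n → (0 : ℝ) < n.choose r := fun n hn => by exact_mod_cast Nat.choose_pos hn
  have lo : ∀ n, r ≤ n → 1 / (32 * (r : ℝ)) ≤ u n := by
    intro n hn
    obtain ⟨G, h1, h2, h3⟩ := Pool.Agent.H.MP_7618c8_co.lower r n (by omega)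
    have h4 := Nat.mul_le_mul_left (32 * r) (le_ex (r := r) (G := G) ⟨h1, h2⟩)
    have h5 : ((n.choose r : ℕ) : ℝ) ≤ ((32 * r * ex r n : ℕ) : ℝ) := by exact_mod_cast h3.trans h4
    push_cast at h5
    rw [hu, div_le_div_iff₀ (by positivity) (cp n hn)]
    linarith
  have hi : ∀ n, r < n → u n ≤ 2 / ((r : ℝ) + 1) := by
    intro n hn
    obtain ⟨G, hG, e⟩ := ex_att r n
    have h := Pool.Agent.H.MP_7618c8_co.upper r n hn G hG.1 hG.2
    rw [← e] at h
    have h5 : (((r + 1) * ex r n : ℕ) : ℝ) ≤ ((2 * n.choose r : ℕ) : ℝ) := by exact_mod_cast h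
    push_cast at h5
    rw [hu, div_le_div_iff₀ (cp n hn.le) (by positivity)]
    linarith
  have anti : Antitone (fun n => u (n + r)) := by
    apply antitone_nat_of_succ_le
    intro n
    have h := mono r (n + r) (by omega)
    have h5 : ((ex r (n + r + 1) * (n + r).choose r : ℕ) : ℝ) ≤
      ((ex r (n + r) * (n + r + 1).choose r : ℕ) : ℝ) := by exact_mod_cast h
    push_cast at h5
    simp only [hu]
    rw [show n + 1 + r = n + r + 1 by ring,
      div_le_div_iff₀ (cp _ (by omega)) (cp _ (by omega))]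
    exact h5
  have lim := tendsto_atTop_ciInf anti ⟨1 / (32 * (r : ℝ)), by
    rintro _ ⟨n, rfl⟩
    exact lo _ (by omega)⟩
  rw [tendsto_add_atTop_iff_nat] at lim
  refine ⟨_, lim, ge_of_tendsto lim ?_, le_of_tendsto lim ?_⟩
  · exact eventually_atTop.2 ⟨r, lo⟩
  · exact eventually_atTop.2 ⟨r + 1, fun n hn => hi n hn⟩

end Pool.Agent.Results.MP_7618c8_co.Order
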